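import Mathlib
import Pool.Agent.H622.LenB

set_option autoImplicit false

/-!
Every interval of `H` consecutive integers contains `O(H ^ 0.864)` lengths of cycles of the 3x+1 map
on the integers, and for infinitely many `H` every such interval contains `O(H ^ 0.4875)` of them.
-/

namespace Pool.Agent.Results.MP_dee342_nt.LengthsInIntervals

/-- The map `T_{a,b}` on the integers. -/
def T (a b x : ℤ) : ℤ := if x % 2 = 0 then x / 2 else (a * x + b) / 2

/-- `Z` is a cycle (periodic orbit) of `T_3 = T_{3,1}`. -/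
def IsCycle (Z : Finset ℤ) : Prop :=
  ∃ (x : ℤ) (p : ℕ), 1 ≤ p ∧ (T 3 1)^[p] x = x ∧ Z = (Finset.range p).image fun i => (T 3 1)^[i] x

/-- The number of the `p` with `a ≤ p < a + H` which are numbers of elements of cycles of `T_3`. -/
noncomputable def lengths (a H : ℕ) : ℕ :=
  Set.ncard {p : ℕ | a ≤ p ∧ p < a + H ∧ ∃ Z : Finset ℤ, IsCycle Z ∧ Z.card = p}

theorem conv {E C : ℝ} {a H : ℕ} (h : ∀ F : Finset ℕ,
    (∀ p ∈ F, a ≤ p ∧ p < a + H ∧ ∃ Z : Finset ℤ, Pool.Agent.H547R3.IsCycle Z ∧ Z.card = p) →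
    (F.card : ℝ) ≤ C * (H : ℝ) ^ E) : (lengths a H : ℝ) ≤ C * (H : ℝ) ^ E := by
  classical
  have hfin : {p : ℕ | a ≤ p ∧ p < a + H ∧ ∃ Z : Finset ℤ, IsCycle Z ∧ Z.card = p}.Finite :=
    (Set.finite_Iio (a + H)).subset (fun p hp => hp.2.1)
  unfold lengths
  rw [Set.ncard_eq_toFinset_card _ hfin]
  apply h
  intro p hp
  rw [Set.Finite.mem_toFinset] at hp
  exact hp

/-- There is `C` such that any `H` consecutive natural numbers `a, ..., a + H - 1` contain at most
`C H ^ 0.864` numbers of elements of cycles of the 3x+1 map on the integers, and for infinitely many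
`H` they contain at most `C H ^ 0.4875` of them, for all `a`. -/
theorem result : ∃ C : ℝ,
    (∀ a H : ℕ, 1 ≤ H → (lengths a H : ℝ) ≤ C * (H : ℝ) ^ (0.864 : ℝ)) ∧
    (∀ N : ℕ, ∃ H : ℕ, N ≤ H ∧ ∀ a : ℕ, (lengths a H : ℝ) ≤ C * (H : ℝ) ^ (0.4875 : ℝ)) := by
  obtain ⟨C1, hC1, h1⟩ := Pool.Agent.H622.lengths_all
  obtain ⟨C2, hC2, h2⟩ := Pool.Agent.H622.lengths_scales
  refine ⟨max C1 C2, fun a H hH => ?_, fun N => ?_⟩
  · refine (conv (h1 a H hH)).trans (mul_le_mul_of_nonneg_right (le_max_left _ _) (by positivity))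
  · obtain ⟨H, hN, h⟩ := h2 N
    exact ⟨H, hN, fun a => (conv (h a)).trans
      (mul_le_mul_of_nonneg_right (le_max_right _ _) (by positivity))⟩

end Pool.Agent.Results.MP_dee342_nt.LengthsInIntervals
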