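import Mathlib
import Pool.Agent.H622.SG

set_option autoImplicit false

/-!
The linear forms `p log 2 - o log 3` of all the cycles of the 3x+b maps on the integers (`p` the number
of elements, `o` the number of odd elements of the cycle): they are summable in powers below the entropy
exponent, uniformly in `b` at the scale `|b|`. For `b = 1` this is the 3x+1 map.
-/

namespace Pool.Agent.Results.MP_dee342_nt.SummableForms

/-- The map `T_{a,b}` on the integers. -/
def T (a b x : ℤ) : ℤ := if x % 2 = 0 then x / 2 else (a * x + b) / 2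

/-- `Z` is a cycle (periodic orbit) of `T_{3,b}`. -/
def IsCycle (b : ℤ) (Z : Finset ℤ) : Prop :=
  ∃ (x : ℤ) (p : ℕ), 1 ≤ p ∧ (T 3 b)^[p] x = x ∧ Z = (Finset.range p).image fun i => (T 3 b)^[i] x

/-- The number of odd elements of `Z`. -/
def odds (Z : Finset ℤ) : ℕ := (Z.filter fun x => x % 2 = 1).card

/-- The absolute value of `p log 2 - o log 3`, `p` the number of elements, `o` the number of odd
elements of `Z`. -/
noncomputable def form (Z : Finset ℤ) : ℝ := |(Z.card : ℝ) * Real.log 2 - odds Z * Real.log 3|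

/-- The cycles of `T_{3,b}`. -/
def Cycles (b : ℤ) : Set (Finset ℤ) := {Z | IsCycle b Z}

/-- The cycles of `T_{3,b}` all of whose elements have absolute value at least `M`. -/
def CyclesFrom (b : ℤ) (M : ℝ) : Set (Finset ℤ) := {Z | IsCycle b Z ∧ ∀ x ∈ Z, M ≤ |(x : ℝ)|}

/-- Let `β = H(log 2 / log 3) / log 2 = 0.9499...`, `H` the binary entropy. There is `η` strictly below `β`
such that for every `s > η`, for all odd `b`: the sum of `form Z ^ s` over all the cycles `Z` of `T_{3,b}`
on the integers converges, the sum of `min 1 (form Z) ^ s` is at most `C |b|`, `C` independent of `b`, and,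
if `s ≤ 1`, the sum of `form Z ^ s` over the cycles all of whose elements have absolute value at least
`N |b|` is at most `C |b| N ^ (η - s)` for all `N ≥ 3`. -/
theorem result : Real.binEntropy (Real.log 2 / Real.log 3) / Real.log 2 < 0.951 ∧
    ∃ η : ℝ, 0 < η ∧ η < Real.binEntropy (Real.log 2 / Real.log 3) / Real.log 2 ∧
      ∀ s : ℝ, η < s →
        (∃ C : ℝ, ∀ b : ℤ, Odd b → Summable (fun Z : Cycles b => form Z ^ s) ∧
          Summable (fun Z : Cycles b => (min 1 (form Z)) ^ s) ∧
          ∑' Z : Cycles b, (min 1 (form Z)) ^ s ≤ C * |(b : ℝ)|) ∧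
        (s ≤ 1 → ∃ C : ℝ, ∀ b : ℤ, Odd b → ∀ N : ℝ, 3 ≤ N →
          Summable (fun Z : CyclesFrom b (N * |(b : ℝ)|) => form Z ^ s) ∧
          ∑' Z : CyclesFrom b (N * |(b : ℝ)|), form Z ^ s ≤ C * |(b : ℝ)| * N ^ (η - s)) := by
  classical
  refine ⟨Pool.Agent.H319R2.beta_lt, ?_⟩
  obtain ⟨η, hη0, hη, hmain⟩ := Pool.Agent.H622.SG.final
  refine ⟨η, hη0, hη, ?_⟩
  intro s hs
  have hs0 : 0 < s := hη0.trans hs
  obtain ⟨⟨C, hC, h1⟩, h2⟩ := hmain s hs
  have hf0 : ∀ Z : Finset ℤ, 0 ≤ form Z := fun Z => abs_nonneg _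
  have hm0 : ∀ Z : Finset ℤ, 0 ≤ min 1 (form Z) := fun Z => le_min zero_le_one (hf0 Z)
  refine ⟨⟨C, ?_⟩, ?_⟩
  · intro b hb
    have hfin : ∀ F : Finset (Cycles b), ∑ Z ∈ F, (min 1 (form Z)) ^ s ≤ C * |(b : ℝ)| := by
      intro F
      have h3 := h1 b hb (F.image (fun Z : Cycles b => (Z : Finset ℤ))) (by
        intro Z hZ
        rw [Finset.mem_image] at hZ
        obtain ⟨Z', -, rfl⟩ := hZ
        exact Z'.2)
      rw [Finset.sum_image (fun Z _ Z' _ h => Subtype.ext h)] at h3
      exact h3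
    have hsum : Summable (fun Z : Cycles b => (min 1 (form Z)) ^ s) :=
      summable_of_sum_le (fun Z => Real.rpow_nonneg (hm0 Z) s) hfin
    refine ⟨?_, hsum, hsum.tsum_le_of_sum_le hfin⟩
    apply hsum.congr_cofinite
    have h4 := hsum.tendsto_cofinite_zero
    filter_upwards [h4.eventually (gt_mem_nhds one_pos)] with Z hZ
    have h5 : form Z < 1 := by
      by_contra h
      rw [min_eq_left (not_lt.1 h), Real.one_rpow] at hZ
      exact lt_irrefl _ hZ
    rw [min_eq_right h5.le]
  · intro hs1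
    obtain ⟨C', hC', h3⟩ := h2 hs1
    refine ⟨C', ?_⟩
    intro b hb N hN
    have hfin : ∀ F : Finset (CyclesFrom b (N * |(b : ℝ)|)),
        ∑ Z ∈ F, form Z ^ s ≤ C' * |(b : ℝ)| * N ^ (η - s) := by
      intro F
      have h4 := h3 b hb N hN (F.image (fun Z : CyclesFrom b (N * |(b : ℝ)|) => (Z : Finset ℤ))) (by
        intro Z hZ
        rw [Finset.mem_image] at hZ
        obtain ⟨Z', -, rfl⟩ := hZ
        exact Z'.2)
      rw [Finset.sum_image (fun Z _ Z' _ h => Subtype.ext h)] at h4
      exact h4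
    have hsum : Summable (fun Z : CyclesFrom b (N * |(b : ℝ)|) => form Z ^ s) :=
      summable_of_sum_le (fun Z => Real.rpow_nonneg (hf0 Z) s) hfin
    exact ⟨hsum, hsum.tsum_le_of_sum_le hfin⟩

end Pool.Agent.Results.MP_dee342_nt.SummableForms
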