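import Mathlib
import Pool.Agent.H622.SU

set_option autoImplicit false

/-!
# Sums and differences of a bounded number of lengths of cycles of the maps `T_{a,b}`

For all odd `a ≥ 3`, all odd `b` (in particular for the `3x+1` and the `5x+1` map) and all `k` almost no
integer is the number of elements of a union of at most `k` cycles of `T_{a,b}` on the integers, and the
same holds for the sums and differences of the numbers of elements of at most `k` cycles.
-/

namespace Pool.Agent.Results.MP_dee342_nt.SumsOfLengths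

open Finset

/-- the map `T_{a,b}` on the integers -/
def T (a b x : ℤ) : ℤ := if x % 2 = 0 then x / 2 else (a * x + b) / 2

/-- the periodic orbits (cycles) of a map on the integers, as finite sets:
`{x, f x, ..., f^(p-1) x}` with `p ≥ 1` and `f^p x = x` -/
def IsCycle (f : ℤ → ℤ) (c : Finset ℤ) : Prop :=
  ∃ x : ℤ, ∃ p : ℕ, 1 ≤ p ∧ f^[p] x = x ∧ c = (range p).image (fun j => f^[j] x)

/-- `m` is zero, or the number of elements of a cycle with at most `Q` elements, or minus such a number -/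
def Term (f : ℤ → ℤ) (Q : ℝ) (m : ℤ) : Prop :=
  m = 0 ∨ ∃ c, IsCycle f c ∧ (c.card : ℝ) ≤ Q ∧ (m = c.card ∨ m = -(c.card : ℤ))

/-- the exponent of `a` in one step -/
def ex (x : ℤ) : ℕ := if x % 2 = 1 then 1 else 0

theorem model (a b : ℤ) (ha : a % 2 = 1) (ha3 : 3 ≤ a) (hb : b % 2 = 1) :
    Pool.Agent.H446R2.CS.Model (T a b) 2 a.toNat ex |(b : ℝ)| where
  hd := by norm_num
  hβ := by omega
  bd := by
    intro x
    have hta : ((a.toNat : ℕ) : ℤ) = a := Int.toNat_of_nonneg (by omega)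
    rw [hta]
    rcases Int.emod_two_eq_zero_or_one x with h | h
    · have h1 : (2 : ℤ) * T a b x = x := by
        unfold T
        rw [if_pos h]
        omega
      have h2 : ex x = 0 := by
        unfold ex
        rw [if_neg (by omega)]
      rw [h2, pow_zero, one_mul]
      have h3 : (((2 : ℕ) : ℤ) * T a b x) = x := by exact_mod_cast h1
      rw [h3, sub_self, abs_zero]
      exact abs_nonneg _
    · have h1 : (2 : ℤ) * T a b x = a * x + b := by
        unfold T
        rw [if_neg (by omega)]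
        have h4 : (a * x + b) % 2 = 0 := by
          rw [Int.add_emod, Int.mul_emod, ha, h, hb]
          norm_num
        omega
      have h2 : ex x = 1 := by
        unfold ex
        rw [if_pos h]
      rw [h2, pow_one]
      have h3 : (((2 : ℕ) : ℤ) * T a b x) = a * x + b := by exact_mod_cast h1
      rw [h3]
      push_cast
      rw [add_sub_cancel_left]

/-- the number of elements of a union of at most `k` cycles as a sum -/
theorem union_sum {f : ℤ → ℤ} {k : ℕ} {F : Finset (Finset ℤ)} (hk : F.card ≤ k)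
    (hF : ∀ Z ∈ F, IsCycle f Z) {n : ℕ} (hn : (F.biUnion id).card = n) {Q : ℝ} (hQ : (n : ℝ) ≤ Q) :
    ∃ x : Fin k → ℤ, (∀ j, Term f Q (x j)) ∧ (n : ℤ) = ∑ j, x j := by
  classical
  have hcard : ∀ Z ∈ F, (Z.card : ℝ) ≤ Q := by
    intro Z hZ
    have h1 : Z.card ≤ n := by
      rw [← hn]
      exact card_le_card (subset_biUnion_of_mem id hZ)
    have h2 : (Z.card : ℝ) ≤ n := by exact_mod_cast h1
    linarith
  have hsum : (n : ℤ) = ∑ Z ∈ F, (Z.card : ℤ) := by
    rw [← hn, card_biUnion]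
    · push_cast
      rfl
    · intro Z hZ Z' hZ' hne
      rw [Function.onFun, disjoint_left]
      intro y hy hy'
      exact hne (Pool.Agent.H446R2.CS.IsCycle.eq_of_mem (hF Z hZ) (hF Z' hZ') hy hy')
  obtain ⟨g⟩ : Nonempty (F ↪ Fin k) := Function.Embedding.nonempty_of_card_le (by simpa using hk)
  refine ⟨fun j => ∑ Z : F, if g Z = j then ((Z : Finset ℤ).card : ℤ) else 0, ?_, ?_⟩
  · intro j
    by_cases h : ∃ Z : F, g Z = j
    · obtain ⟨Z, hZ⟩ := h
      right
      refine ⟨Z, hF Z Z.2, hcard Z Z.2, Or.inl ?_⟩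
      show (∑ Z : F, if g Z = j then ((Z : Finset ℤ).card : ℤ) else 0) = _
      rw [Finset.sum_eq_single Z]
      · rw [if_pos hZ]
      · intro Z' _ hne
        rw [if_neg]
        intro h
        exact hne (g.injective (h.trans hZ.symm))
      · intro h
        exact absurd (mem_univ _) h
    · left
      push Not at h
      apply Finset.sum_eq_zero
      intro Z _
      rw [if_neg (h Z)]
  · rw [sum_comm, hsum, ← sum_coe_sort F]
    apply sum_congr rfl
    intro Z _
    rw [Finset.sum_ite_eq univ (g Z)]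
    simp

/-- Let `a ≥ 3` be odd and `k` a natural number. There is `c > 0` such that for every odd `b`:
(1) for every `B ≥ 0` there is `A` such that for all `u` and all `H ≥ 1` at most `A H exp (-c √(log H))`
of the integers `n` with `u ≤ n < u + H` are sums of `k` terms, each of which is zero or plus or minus the
number of elements of a cycle of `T_{a,b}` with at most `H ^ B` elements;
(2) there is `A` such that for all `P ≥ 1` at most `A P exp (-c √(log P))` of the numbers `n ≤ P` are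
numbers of elements of unions of at most `k` cycles of `T_{a,b}`. -/
theorem result (a : ℤ) (ha : a % 2 = 1) (ha3 : 3 ≤ a) (k : ℕ) :
    ∃ c : ℝ, 0 < c ∧ ∀ b : ℤ, b % 2 = 1 →
      (∀ B : ℝ, 0 ≤ B → ∃ A : ℝ, 0 < A ∧ ∀ (u : ℤ) (H : ℕ), 1 ≤ H →
        (Set.ncard {n : ℤ | u ≤ n ∧ n < u + H ∧
            ∃ x : Fin k → ℤ, (∀ j, Term (T a b) ((H : ℝ) ^ B) (x j)) ∧ n = ∑ j, x j} : ℝ) ≤
          A * (H * Real.exp (-(c * √(Real.log H))))) ∧
      ∃ A : ℝ, 0 < A ∧ ∀ P : ℕ, 1 ≤ P →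
        (Set.ncard {n : ℕ | n ≤ P ∧ ∃ F : Finset (Finset ℤ), F.card ≤ k ∧
            (∀ Z ∈ F, IsCycle (T a b) Z) ∧ (F.biUnion id).card = n} : ℝ) ≤
          A * (P * Real.exp (-(c * √(Real.log P)))) := by
  classical
  have hcop : Nat.Coprime a.toNat 2 := by
    rw [Nat.coprime_comm, Nat.Prime.coprime_iff_not_dvd Nat.prime_two]
    omega
  obtain ⟨c, hc0, h⟩ := Pool.Agent.H622.SU.sums (d := 2) (β := a.toNat) le_rfl (by omega) hcop k
  refine ⟨c, hc0, fun b hb => ?_⟩
  have key : ∀ B : ℝ, 0 ≤ B → ∃ A : ℝ, 0 < A ∧ ∀ (u : ℤ) (H : ℕ), 1 ≤ H →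
        (Set.ncard {n : ℤ | u ≤ n ∧ n < u + H ∧
            ∃ x : Fin k → ℤ, (∀ j, Term (T a b) ((H : ℝ) ^ B) (x j)) ∧ n = ∑ j, x j} : ℝ) ≤
          A * (H * Real.exp (-(c * √(Real.log H)))) := by
    intro B hB
    obtain ⟨A, hA, h⟩ := h (T a b) ex _ (model a b ha ha3 hb) B hB
    refine ⟨A, hA, fun u H hH => ?_⟩
    have hfin : {n : ℤ | u ≤ n ∧ n < u + H ∧
            ∃ x : Fin k → ℤ, (∀ j, Term (T a b) ((H : ℝ) ^ B) (x j)) ∧ n = ∑ j, x j}.Finite :=
      (Set.finite_Ico u (u + H)).subset fun n hn => ⟨hn.1, hn.2.1⟩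
    rw [Set.ncard_eq_toFinset_card _ hfin]
    apply h u H hH
    intro n hn
    rw [Set.Finite.mem_toFinset] at hn
    exact hn
  refine ⟨key, ?_⟩
  obtain ⟨A, hA, h1⟩ := key 1 zero_le_one
  refine ⟨2 * A, by positivity, fun P hP => ?_⟩
  have hPr : (1 : ℝ) ≤ P := by exact_mod_cast hP
  have h2 := h1 0 (P + 1) (by omega)
  have hfin : {n : ℤ | 0 ≤ n ∧ n < 0 + ((P + 1 : ℕ) : ℤ) ∧
            ∃ x : Fin k → ℤ, (∀ j, Term (T a b) (((P + 1 : ℕ) : ℝ) ^ (1 : ℝ)) (x j)) ∧ n = ∑ j, x j}.Finite :=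
      (Set.finite_Ico 0 (0 + ((P + 1 : ℕ) : ℤ))).subset fun n hn => ⟨hn.1, hn.2.1⟩
  have h3 : (Set.ncard {n : ℕ | n ≤ P ∧ ∃ F : Finset (Finset ℤ), F.card ≤ k ∧
            (∀ Z ∈ F, IsCycle (T a b) Z) ∧ (F.biUnion id).card = n} : ℝ) ≤
      (Set.ncard {n : ℤ | 0 ≤ n ∧ n < 0 + ((P + 1 : ℕ) : ℤ) ∧
            ∃ x : Fin k → ℤ, (∀ j, Term (T a b) (((P + 1 : ℕ) : ℝ) ^ (1 : ℝ)) (x j)) ∧ n = ∑ j, x j} : ℝ) := by
    have h4 := Set.ncard_le_ncard_of_injOn (s := {n : ℕ | n ≤ P ∧ ∃ F : Finset (Finset ℤ), F.card ≤ k ∧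
            (∀ Z ∈ F, IsCycle (T a b) Z) ∧ (F.biUnion id).card = n}) (fun n : ℕ => (n : ℤ)) (t := {n : ℤ | 0 ≤ n ∧ n < 0 + ((P + 1 : ℕ) : ℤ) ∧
            ∃ x : Fin k → ℤ, (∀ j, Term (T a b) (((P + 1 : ℕ) : ℝ) ^ (1 : ℝ)) (x j)) ∧ n = ∑ j, x j}) (by
        rintro n ⟨hn, F, hF1, hF2, hF3⟩
        refine ⟨by positivity, by omega, ?_⟩
        apply union_sum hF1 hF2 hF3
        rw [Real.rpow_one]
        exact_mod_cast (by omega : n ≤ P + 1)) (fun x _ y _ h => Int.ofNat_inj.1 h) hfin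
    exact_mod_cast h4
  refine h3.trans (h2.trans ?_)
  have hmono : Real.exp (-(c * √(Real.log ((P + 1 : ℕ) : ℝ)))) ≤ Real.exp (-(c * √(Real.log P))) := by
    apply Real.exp_le_exp.2
    have h5 : Real.log P ≤ Real.log ((P + 1 : ℕ) : ℝ) := by
      apply Real.log_le_log (by linarith)
      push_cast
      linarith
    have h6 := mul_le_mul_of_nonneg_left (Real.sqrt_le_sqrt h5) hc0.le
    linarith
  have hP2 : ((P + 1 : ℕ) : ℝ) ≤ 2 * P := by
    push_cast
    linarith
  have hE := Real.exp_pos (-(c * √(Real.log P)))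
  calc A * (((P + 1 : ℕ) : ℝ) * Real.exp (-(c * √(Real.log ((P + 1 : ℕ) : ℝ)))))
      ≤ A * ((2 * P) * Real.exp (-(c * √(Real.log P)))) := by
        apply mul_le_mul_of_nonneg_left _ hA.le
        exact mul_le_mul hP2 hmono (Real.exp_pos _).le (by linarith)
    _ = _ := by ring

end Pool.Agent.Results.MP_dee342_nt.SumsOfLengths
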